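import Mathlib
import Pool.Agent.R151.SpiralCount

/-!
# Maximum touching pairs at the order-`k` triangular tiling distances

`e_{d(k)}(n) ≥ ⌊U_{d(k)}(n)⌋` for all `k ≥ 7` and `n ≥ 1`, in the upper half plane with its
hyperbolic metric.
-/

namespace Pool.Agent.Results.MP_780082_co.SpiralBound

open Pool.Agent.R151.Spiral

/-- For every `k ≥ 7` there is exactly one `d > 0` whose equilateral hyperbolic triangle has the
angle `2π/k`, and for this `d = d(k)` and every `n ≥ 1` one has `⌊U_d(n)⌋ ≤ e_d(n)`. -/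
theorem result (k : ℕ) (hk : 7 ≤ k) :
    (∃! d : ℝ, 0 < d ∧ triAngle d = 2 * Real.pi / k) ∧
    ∀ d : ℝ, 0 < d → triAngle d = 2 * Real.pi / k →
      ∀ n : ℕ, 1 ≤ n → ⌊U d n⌋ ≤ (maxTouching d n : ℤ) :=
  ⟨existsUnique_side hk, fun _ hd h _ hn => floor_U_le hk hd h hn⟩

end Pool.Agent.Results.MP_780082_co.SpiralBound
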